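import Pool.Agent.Helper47.SR.Goals

/-!
MP_0130f7_co, packet SR-E23 (project SR of helper47).
-/

set_option autoImplicit false

namespace Pool.Agent.Helper47.SR

open Finset

open Classical in
/-- the non-identity elements of `G` -/
noncomputable def GS31 {n : ℕ} (G : Grp n) : Finset (Equiv.Perm (Fin n)) :=
  (univ : Finset (Equiv.Perm (Fin n))).filter (fun γ => γ ∈ G ∧ γ ≠ 1)

open Classical in
theorem mem_GS31 {n : ℕ} (G : Grp n) (γ : Equiv.Perm (Fin n)) :
    γ ∈ GS31 G ↔ γ ∈ G ∧ γ ≠ 1 := by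
  simp [GS31]

open Classical in
theorem Ew_swap31 {n : ℕ} (G : Grp n) (F : Finset (Finset (Fin n))) :
    Ew G F = ∑ γ ∈ GS31 G, #(F.filter (fun A => mv γ A = A)) := by
  unfold Ew wt GS31
  simp only [card_filter]
  rw [sum_comm, sum_filter]
  refine sum_congr rfl (fun γ _ => ?_)
  by_cases h : γ ∈ G ∧ γ ≠ 1
  · rw [if_pos h]
    refine sum_congr rfl (fun A _ => ?_)
    by_cases h2 : mv γ A = A
    · rw [if_pos h2, if_pos ⟨h.1, h.2, h2⟩]
    · rw [if_neg h2, if_neg (fun h3 => h2 h3.2.2)]
  · rw [if_neg h]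
    refine sum_eq_zero (fun A _ => ?_)
    rw [if_neg (fun h3 => h ⟨h3.1, h3.2.1⟩)]

theorem fib31 {n : ℕ} (k : ℕ) (f : Fin n → Finset (Fin n)) (hx : ∀ x, x ∈ f x)
    (t : Finset (Finset (Fin n))) (ht : ∀ A ∈ t, #A = k ∧ ∀ x ∈ A, f x = A) :
    k * #t = #((univ : Finset (Fin n)).filter (fun x => f x ∈ t)) := by
  have h := card_eq_sum_card_fiberwise (f := f)
    (s := (univ : Finset (Fin n)).filter (fun x => f x ∈ t)) (t := t)
    (fun x hx => by simpa using hx)
  rw [h, sum_congr rfl (g := fun _ => k), sum_const, smul_eq_mul, mul_comm]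
  intro A hA
  rw [← (ht A hA).1]
  congr 1
  ext x
  simp only [mem_filter, mem_univ, true_and]
  constructor
  · rintro ⟨-, h2⟩
    rw [← h2]
    exact hx x
  · intro h2
    have h3 := (ht A hA).2 x h2
    exact ⟨by rw [h3]; exact hA, h3⟩

theorem mv_mem31 {n : ℕ} {γ : Equiv.Perm (Fin n)} {A : Finset (Fin n)} (h : mv γ A = A)
    {x : Fin n} (hx : x ∈ A) : γ x ∈ A := by
  rw [← h]
  exact mem_map_of_mem _ hx

section
variable {n : ℕ} {G : Grp n} (hG : Semireg G) {γ : Equiv.Perm (Fin n)}
include hG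

theorem sq_one31 (h1 : γ ∈ G) {x : Fin n} (h : γ (γ x) = x) : γ * γ = 1 := by
  by_contra h3
  exact hG (γ * γ) (G.mul_mem h1 h1) h3 x (by simpa [Equiv.Perm.mul_apply] using h)

theorem two_pos31 (h1 : γ ∈ G) (h2 : γ ≠ 1) (h3 : γ * γ = 1) :
    2 * #((lev n 2).filter (fun A => mv γ A = A)) = n := by
  have hne := hG γ h1 h2
  have hsq : ∀ x, γ (γ x) = x := fun x => by
    rw [← Equiv.Perm.mul_apply, h3]; rfl
  rw [fib31 2 (fun x => {x, γ x}) (fun x => by simp)]
  · have e : (univ : Finset (Fin n)).filter (fun x => ({x, γ x} : Finset (Fin n)) ∈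
        (lev n 2).filter (fun A => mv γ A = A)) = univ := by
      refine filter_true_of_mem (fun x _ => ?_)
      rw [mem_filter, mem_powersetCard]
      refine ⟨⟨subset_univ _, card_pair (hne x).symm⟩, ?_⟩
      rw [mv, map_insert, map_singleton]
      simp only [Equiv.coe_toEmbedding, hsq]
      exact pair_comm _ _
    rw [e, card_univ, Fintype.card_fin]
  · intro A hA
    rw [mem_filter, mem_powersetCard] at hA
    refine ⟨hA.1.2, fun x hx => ?_⟩
    refine eq_of_subset_of_card_le ?_ ?_
    · intro y hy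
      rw [mem_insert, mem_singleton] at hy
      rcases hy with rfl | rfl
      · exact hx
      · exact mv_mem31 hA.2 hx
    · rw [card_pair (hne x).symm, hA.1.2]

theorem two_zero31 (h1 : γ ∈ G) (h2 : γ ≠ 1) (h3 : γ * γ ≠ 1) :
    (lev n 2).filter (fun A => mv γ A = A) = ∅ := by
  have hne := hG γ h1 h2
  rw [filter_eq_empty_iff]
  intro A hA h4
  rw [mem_powersetCard] at hA
  have h5 : A.Nonempty := by
    rw [← card_pos, hA.2]; norm_num
  obtain ⟨x, hx⟩ := h5
  have h6 := mv_mem31 h4 hx
  have h7 := mv_mem31 h4 h6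
  have h8 : ({x, γ x} : Finset (Fin n)) = A := by
    refine eq_of_subset_of_card_le ?_ ?_
    · intro y hy
      rw [mem_insert, mem_singleton] at hy
      rcases hy with rfl | rfl
      · exact hx
      · exact h6
    · rw [card_pair (hne x).symm, hA.2]
  rw [← h8, mem_insert, mem_singleton] at h7
  rcases h7 with h7 | h7
  · exact h3 (sq_one31 hG h1 h7)
  · exact hne _ h7

theorem three_le31 (h1 : γ ∈ G) (h2 : γ ≠ 1) (h3 : γ * γ ≠ 1) :
    3 * #((lev n 3).filter (fun A => mv γ A = A)) ≤ n := by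
  have hne := hG γ h1 h2
  have hc : ∀ x, #({x, γ x, γ (γ x)} : Finset (Fin n)) = 3 := by
    intro x
    rw [card_eq_three]
    exact ⟨x, γ x, γ (γ x), (hne x).symm, fun h => h3 (sq_one31 hG h1 h.symm),
      (hne (γ x)).symm, rfl⟩
  rw [fib31 3 (fun x => {x, γ x, γ (γ x)}) (fun x => by simp)]
  · exact (card_le_univ _).trans (by rw [Fintype.card_fin])
  · intro A hA
    rw [mem_filter, mem_powersetCard] at hA
    refine ⟨hA.1.2, fun x hx => ?_⟩
    refine eq_of_subset_of_card_le ?_ ?_
    · intro y hy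
      rw [mem_insert, mem_insert, mem_singleton] at hy
      rcases hy with rfl | rfl | rfl
      · exact hx
      · exact mv_mem31 hA.2 hx
      · exact mv_mem31 hA.2 (mv_mem31 hA.2 hx)
    · rw [hc x, hA.1.2]

theorem three_zero31 (h1 : γ ∈ G) (h2 : γ ≠ 1) (h3 : γ * γ = 1) :
    (lev n 3).filter (fun A => mv γ A = A) = ∅ := by
  have hne := hG γ h1 h2
  have hsq : ∀ x, γ (γ x) = x := fun x => by
    rw [← Equiv.Perm.mul_apply, h3]; rfl
  rw [filter_eq_empty_iff]
  intro A hA h4
  rw [mem_powersetCard] at hA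
  have h5 : A.Nonempty := by
    rw [← card_pos, hA.2]; norm_num
  obtain ⟨x, hx⟩ := h5
  have h6 := mv_mem31 h4 hx
  have h8 : ∃ c ∈ A, c ∉ ({x, γ x} : Finset (Fin n)) := by
    by_contra h
    push Not at h
    have h9 : #A ≤ #({x, γ x} : Finset (Fin n)) := card_le_card h
    rw [card_pair (hne x).symm, hA.2] at h9
    omega
  obtain ⟨c, hc, hc'⟩ := h8
  rw [mem_insert, mem_singleton] at hc'
  push Not at hc'
  have h10 := mv_mem31 h4 hc
  have d1 : γ c ≠ x := fun h => hc'.2 (by rw [← h, hsq])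
  have d2 : γ c ≠ γ x := fun h => hc'.1 (γ.injective h)
  have h11 : ({x, γ x, c, γ c} : Finset (Fin n)) ⊆ A := by
    intro y hy
    simp only [mem_insert, mem_singleton] at hy
    rcases hy with rfl | rfl | rfl | rfl
    · exact hx
    · exact h6
    · exact hc
    · exact h10
  have h12 : #({x, γ x, c, γ c} : Finset (Fin n)) = 4 := by
    rw [card_insert_of_notMem, card_insert_of_notMem, card_pair]
    · exact (hne c).symm
    · simp only [mem_insert, mem_singleton, not_or]
      exact ⟨fun h => hc'.2 h.symm, fun h => d2 h.symm⟩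
    · simp only [mem_insert, mem_singleton, not_or]
      exact ⟨(hne x).symm, fun h => hc'.1 h.symm, fun h => d1 h.symm⟩
  have h13 := card_le_card h11
  rw [h12, hA.2] at h13
  omega

end

open Classical in
theorem nInv_eq31 {n : ℕ} (G : Grp n) :
    nInv G = #((GS31 G).filter (fun γ => γ * γ = 1)) := by
  unfold nInv GS31
  rw [Nat.card_eq_fintype_card, Fintype.card_subtype, filter_filter]
  congr 1
  ext γ
  simp only [mem_filter, mem_univ, true_and]
  tauto

open Classical in
theorem card_G31 {n : ℕ} (G : Grp n) : Nat.card G = #(GS31 G) + 1 := by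
  have h0 : Nat.card G = #((univ : Finset (Equiv.Perm (Fin n))).filter (fun γ => γ ∈ G)) := by
    rw [Nat.card_eq_fintype_card, ← Fintype.card_subtype]
  rw [h0, ← card_insert_of_notMem (a := (1 : Equiv.Perm (Fin n))) (s := GS31 G)]
  · congr 1
    ext γ
    simp only [mem_filter, mem_univ, true_and, mem_insert, mem_GS31]
    constructor
    · intro h
      by_cases h2 : γ = 1
      · exact Or.inl h2
      · exact Or.inr ⟨h, h2⟩
    · rintro (h | h)
      · rw [h]; exact G.one_mem
      · exact h.1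
  · rw [mem_GS31]
    exact fun h => h.2 rfl

theorem card_le31 {n : ℕ} (G : Grp n) (hG : Semireg G) (hn : 1 ≤ n) : Nat.card G ≤ n := by
  let x0 : Fin n := ⟨0, hn⟩
  have h : Function.Injective (fun γ : G => (γ : Equiv.Perm (Fin n)) x0) := by
    intro γ γ' h
    by_contra h2
    have h3 : ((γ' : Equiv.Perm (Fin n))⁻¹ * (γ : Equiv.Perm (Fin n))) ≠ 1 := by
      intro h4
      apply h2
      have h5 := inv_mul_eq_one.1 h4
      exact Subtype.ext h5.symm
    refine hG _ (G.mul_mem (G.inv_mem γ'.2) γ.2) h3 x0 ?_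
    rw [Equiv.Perm.mul_apply]
    simp only at h
    rw [h]
    simp
  calc Nat.card G ≤ Nat.card (Fin n) := Nat.card_le_card_of_injective _ h
    _ = n := by simp

/-- packet E23, without hypotheses -/
theorem goal_E23' : Goal_E23 := by
  classical
  intro n G hG hn
  refine ⟨?_, ?_, card_le31 G hG hn⟩
  · rw [Ew_swap31, mul_sum, nInv_eq31, card_filter, mul_sum]
    refine sum_congr rfl (fun γ hγ => ?_)
    rw [mem_GS31] at hγ
    by_cases h : γ * γ = 1
    · rw [if_pos h, mul_one]
      convert two_pos31 hG hγ.1 hγ.2 h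
    · rw [if_neg h, mul_zero]
      have h2 := two_zero31 hG hγ.1 hγ.2 h
      rw [show #((lev n 2).filter (fun A => mv γ A = A)) = 0 by
        rw [card_eq_zero]; convert h2, mul_zero]
  · have h1 : 3 * Ew G (lev n 3) ≤ n * #((GS31 G).filter (fun γ => ¬ γ * γ = 1)) := by
      rw [Ew_swap31, mul_sum, card_filter, mul_sum]
      refine sum_le_sum (fun γ hγ => ?_)
      rw [mem_GS31] at hγ
      by_cases h : γ * γ = 1
      · have h2 := three_zero31 hG hγ.1 hγ.2 h
        rw [show #((lev n 3).filter (fun A => mv γ A = A)) = 0 by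
          rw [card_eq_zero]; convert h2]
        simp
      · rw [if_pos h, mul_one]
        convert three_le31 hG hγ.1 hγ.2 h
    have h2 := card_filter_add_card_filter_not (s := GS31 G) (fun γ => γ * γ = 1)
    rw [card_G31, nInv_eq31, ← h2]
    calc 3 * Ew G (lev n 3) + n * (1 + #((GS31 G).filter (fun γ => γ * γ = 1)))
        ≤ n * #((GS31 G).filter (fun γ => ¬ γ * γ = 1))
          + n * (1 + #((GS31 G).filter (fun γ => γ * γ = 1))) := by omega
      _ = n * (#((GS31 G).filter (fun γ => γ * γ = 1))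
          + #((GS31 G).filter (fun γ => ¬ γ * γ = 1)) + 1) := by ring

theorem goal_E23 (_hINVC : Goal_INVC) : Goal_E23 := goal_E23'

end Pool.Agent.Helper47.SR
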