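import Pool.Agent.Helper47.SR.Goals

/-!
MP_0130f7_co, packet SR-QSYM (project SR of helper47).
-/

set_option autoImplicit false

namespace Pool.Agent.Helper47.SR

open Finset

theorem mem_orb31 {n : ℕ} (G : Grp n) (A B : Finset (Fin n)) :
    B ∈ orb G A ↔ ∃ γ ∈ G, mv γ A = B := by
  classical
  simp [orb]

theorem mem_orb_self31 {n : ℕ} (G : Grp n) (A : Finset (Fin n)) : A ∈ orb G A := by
  rw [mem_orb31]
  refine ⟨1, G.one_mem, ?_⟩
  ext x
  rw [mv, mem_map_equiv]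
  exact Iff.rfl

theorem mv_compl31 {n : ℕ} (γ : Equiv.Perm (Fin n)) (A : Finset (Fin n)) :
    mv γ Aᶜ = (mv γ A)ᶜ := by
  ext x
  simp only [mv, mem_map_equiv, mem_compl]

theorem orb_compl31 {n : ℕ} (G : Grp n) (A : Finset (Fin n)) :
    orb G Aᶜ = (orb G A).image (fun B => Bᶜ) := by
  ext B
  rw [mem_orb31, mem_image]
  constructor
  · rintro ⟨γ, hγ, rfl⟩
    exact ⟨mv γ A, (mem_orb31 G A _).2 ⟨γ, hγ, rfl⟩, (mv_compl31 γ A).symm⟩
  · rintro ⟨C, hC, rfl⟩
    obtain ⟨γ, hγ, rfl⟩ := (mem_orb31 G A C).1 hC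
    exact ⟨γ, hγ, mv_compl31 γ A⟩

theorem goal_QSYM : Goal_QSYM := by
  intro n G
  constructor
  · intro i j hij
    rw [Finset.disjoint_left]
    intro O h1 h2
    simp only [QL, mem_image, mem_powersetCard] at h1 h2
    obtain ⟨A, ⟨-, hA⟩, hA'⟩ := h1
    obtain ⟨B, ⟨-, hB⟩, hB'⟩ := h2
    have h3 : A ∈ orb G B := by
      rw [hB', ← hA']
      exact mem_orb_self31 G A
    obtain ⟨γ, -, h4⟩ := (mem_orb31 G B A).1 h3
    apply hij
    rw [← hA, ← hB, ← h4, card_map]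
  · intro m hm
    have e : QL G (n - m) = (QL G m).image (fun O => O.image (fun B => Bᶜ)) := by
      ext O
      simp only [QL, mem_image, mem_powersetCard]
      constructor
      · rintro ⟨A, ⟨-, hA⟩, rfl⟩
        refine ⟨orb G Aᶜ, ⟨Aᶜ, ⟨subset_univ _, ?_⟩, rfl⟩, ?_⟩
        · rw [card_compl, Fintype.card_fin, hA]
          omega
        · rw [← orb_compl31, compl_compl]
      · rintro ⟨O', ⟨A, ⟨-, hA⟩, rfl⟩, rfl⟩
        refine ⟨Aᶜ, ⟨subset_univ _, ?_⟩, orb_compl31 G A⟩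
        rw [card_compl, Fintype.card_fin, hA]
    rw [e, card_image_of_injective]
    intro O O' h
    have h' := congrArg (fun P : Finset (Finset (Fin n)) => P.image (fun B => Bᶜ)) h
    simpa [image_image, Function.comp_def] using h'

end Pool.Agent.Helper47.SR
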