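import Pool.Agent.Helper75.SR.Goals2
import Pool.Agent.Helper93.SR.Curv
import Pool.Agent.Helper13.SR.GEL

/-!
# MP_d08e19_gt, packet SR-GTay2
-/

namespace Pool.Agent.Helper31.SR

set_option synthInstance.maxSize 1000
open scoped ContDiff Topology
open Pool.Agent.Helper75.SR Pool.Agent.Helper54.SRD
open Pool.Agent.Helper13.SR (hasFDerivAt_g hasFDerivAt_xi fderiv_Gb)
open Pool.Agent.Helper93.SR (cd_phi dGam_symm R_skew R_xi)

variable {E : Type} [NormedAddCommGroup E] [NormedSpace ℝ E] {U : Set E}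

theorem hasFDerivAt_Gam (S : LocSas E U) {x : E} (hx : x ∈ U) :
    HasFDerivAt S.Gam (fderiv ℝ S.Gam x) x :=
  ((S.Gam_smooth.contDiffAt (S.isOpen.mem_nhds hx)).differentiableAt (by simp)).hasFDerivAt

theorem hasFDerivAt_phi (S : LocSas E U) (a : Fin 3) {x : E} (hx : x ∈ U) :
    HasFDerivAt (S.phi a) (fderiv ℝ (S.phi a) x) x :=
  ((cd_phi S hx a).differentiableAt (by simp)).hasFDerivAt

/-- derivative of `y ↦ g_y (p y) (q y)` -/
theorem pair (S : LocSas E U) {x : E} (hx : x ∈ U) {p q : E → E} {P Q : E →L[ℝ] E}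
    (hp : HasFDerivAt p P x) (hq : HasFDerivAt q Q x) :
    ∃ L : E →L[ℝ] ℝ, HasFDerivAt (fun y => S.g y (p y) (q y)) L x ∧
      ∀ u, L u = S.g x (S.Gam x u (p x)) (q x) + S.g x (p x) (S.Gam x u (q x))
        + S.g x (P u) (q x) + S.g x (p x) (Q u) := by
  refine ⟨_, ((hasFDerivAt_g S hx).clm_apply hp).clm_apply hq, fun u => ?_⟩
  have h1 := S.compat x hx u (p x) (q x)
  simp only [ContinuousLinearMap.add_apply, ContinuousLinearMap.coe_comp', Function.comp_apply,
    ContinuousLinearMap.flip_apply]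
  rw [h1]
  ring

theorem Gam_ap (S : LocSas E U) {x : E} (hx : x ∈ U) (v w : E) :
    ∃ P : E →L[ℝ] E, HasFDerivAt (fun y => S.Gam y v w) P x ∧
      ∀ u, P u = fderiv ℝ S.Gam x u v w := by
  refine ⟨_, ((hasFDerivAt_Gam S hx).clm_apply (hasFDerivAt_const v x)).clm_apply
    (hasFDerivAt_const w x), fun u => ?_⟩
  simp

theorem phi_ap (S : LocSas E U) (a : Fin 3) {x : E} (hx : x ∈ U) (v : E) :
    ∃ P : E →L[ℝ] E, HasFDerivAt (fun y => S.phi a y v) P x ∧
      ∀ u, P u = fderiv ℝ (S.phi a) x u v := by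
  refine ⟨_, (hasFDerivAt_phi S a hx).clm_apply (hasFDerivAt_const v x), fun u => ?_⟩
  simp

theorem gTay2 : GTay2 := by
  intro E _ _ U S β x hx T V V'
  have hsy := S.g_symm x hx
  -- derivatives of the basic functions
  obtain ⟨PG, hPG, hPG'⟩ := Gam_ap S hx V T
  have hT : HasFDerivAt (fun _ : E => T) (0 : E →L[ℝ] E) x := hasFDerivAt_const T x
  obtain ⟨L1, hL1, hL1'⟩ := pair S hx hPG hT
  obtain ⟨L2, hL2, hL2'⟩ := pair S hx hT hPG
  have hph : ∀ a : Fin 3, ∃ L : E →L[ℝ] ℝ, HasFDerivAt (fun y => S.g y (S.phi a y V) T) L x ∧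
      L V = S.g x (S.phi a x V) (S.Gam x V T) + S.g x V V * S.g x (S.xi a x) T
        - S.g x (S.xi a x) V * S.g x V T + S.g x (S.phi a x (S.Gam x V V)) T := by
    intro a
    obtain ⟨P, hP, hP'⟩ := phi_ap S a hx V
    obtain ⟨L, hL, hL'⟩ := pair S hx hP hT
    refine ⟨L, hL, ?_⟩
    have hs : fderiv ℝ (S.phi a) x V V = S.g x V V • S.xi a x - S.g x (S.xi a x) V • V
        - S.Gam x V (S.phi a x V) + S.phi a x (S.Gam x V V) := by
      have := S.sasaki x hx a V V
      have h2 : fderiv ℝ (S.phi a) x V V + S.Gam x V (S.phi a x V) - S.phi a x (S.Gam x V V)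
        = S.g x V V • S.xi a x - S.g x (S.xi a x) V • V := this
      rw [← h2]
      abel
    rw [hL', hP', hs]
    simp only [map_add, map_sub, map_smul, ContinuousLinearMap.add_apply,
      ContinuousLinearMap.sub_apply, ContinuousLinearMap.smul_apply, smul_eq_mul,
      ContinuousLinearMap.zero_apply, map_zero]
    ring
  have hxT : ∀ a : Fin 3, ∃ L : E →L[ℝ] ℝ, HasFDerivAt (fun y => S.g y (S.xi a y) T) L x ∧
      L V = - S.g x (S.phi a x V) T + S.g x (S.xi a x) (S.Gam x V T) := by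
    intro a
    obtain ⟨L, hL, hL'⟩ := pair S hx (hasFDerivAt_xi S a hx) hT
    refine ⟨L, hL, ?_⟩
    have h2 : S.phi a x V = -(fderiv ℝ (S.xi a) x V + S.Gam x V (S.xi a x)) := phiOf_apply _ _ _ _
    rw [hL', h2]
    simp only [map_neg, map_add, ContinuousLinearMap.neg_apply, ContinuousLinearMap.add_apply,
      ContinuousLinearMap.zero_apply, map_zero]
    ring
  have hxG : ∀ a : Fin 3, ∃ L : E →L[ℝ] ℝ,
      HasFDerivAt (fun y => S.g y (S.xi a y) (S.Gam y V T)) L x ∧
      L V = S.g x (S.xi a x) (S.Gam x V (S.Gam x V T)) - S.g x (S.phi a x V) (S.Gam x V T)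
        + S.g x (S.xi a x) (fderiv ℝ S.Gam x V V T) := by
    intro a
    obtain ⟨L, hL, hL'⟩ := pair S hx (hasFDerivAt_xi S a hx) hPG
    refine ⟨L, hL, ?_⟩
    have h2 : S.phi a x V = -(fderiv ℝ (S.xi a) x V + S.Gam x V (S.xi a x)) := phiOf_apply _ _ _ _
    rw [hL', h2, hPG']
    simp only [map_neg, map_add, ContinuousLinearMap.neg_apply, ContinuousLinearMap.add_apply]
    ring
  choose Lp hLp hLp' using hph
  choose Lx hLx hLx' using hxT
  choose Lg hLg hLg' using hxG
  -- the first term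
  have hf : HasFDerivAt (fun y => fderiv ℝ (S.Gb β) y V T T)
      (L1 + L2 + β • ∑ a : Fin 3, ((-S.g x (S.phi a x V) T + S.g x (S.xi a x) (S.Gam x V T)) • Lx a
          + S.g x (S.xi a x) T • (-Lp a + Lg a)
        + (S.g x (S.xi a x) T • (-Lp a + Lg a)
          + (-S.g x (S.phi a x V) T + S.g x (S.xi a x) (S.Gam x V T)) • Lx a))) x := by
    have h1 := (hL1.add hL2).add ((HasFDerivAt.fun_sum (u := Finset.univ)
      (fun a _ => (((hLp a).neg.add (hLg a)).mul (hLx a)).add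
        ((hLx a).mul ((hLp a).neg.add (hLg a))))).const_mul β)
    refine h1.congr_of_eventuallyEq ?_
    filter_upwards [S.isOpen.mem_nhds hx] with y hy
    rw [fderiv_Gb S β hy]
    rfl
  have hfV : fderiv ℝ (fun y => fderiv ℝ (S.Gb β) y V T T) x V
      = L1 V + L2 V + β * ∑ a : Fin 3,
        ((-S.g x (S.phi a x V) T + S.g x (S.xi a x) (S.Gam x V T)) * Lx a V
          + S.g x (S.xi a x) T * (-Lp a V + Lg a V)
        + (S.g x (S.xi a x) T * (-Lp a V + Lg a V)
          + (-S.g x (S.phi a x V) T + S.g x (S.xi a x) (S.Gam x V T)) * Lx a V)) := by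
    rw [hf.fderiv]
    simp only [ContinuousLinearMap.add_apply, ContinuousLinearMap.smul_apply,
      ContinuousLinearMap.sum_apply, ContinuousLinearMap.neg_apply, smul_eq_mul]
  have hGs : S.Gam x V' V = S.Gam x V V' := S.Gam_symm x hx V' V
  have hGs2 : S.Gam x T V = S.Gam x V T := S.Gam_symm x hx T V
  have hDs : fderiv ℝ S.Gam x V T V = fderiv ℝ S.Gam x V V T := dGam_symm S hx V T V
  have hR : S.R x V T V = fderiv ℝ S.Gam x V V T - fderiv ℝ S.Gam x T V V
      + S.Gam x V (S.Gam x V T) - S.Gam x T (S.Gam x V V) := by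
    rw [LocSas.R, hDs, hGs2]
  have hGW : S.Gam x (S.Gam x V V) T = S.Gam x T (S.Gam x V V) := S.Gam_symm x hx _ _
  have hRT : S.g x (S.R x V T T) V = - S.g x (S.R x V T V) T := by
    rw [R_skew S hx V T T V, hsy T]
  have hRx : ∀ a, S.g x (S.xi a x) (S.R x V T V)
      = - S.g x (S.xi a x) T * S.g x V V + S.g x (S.xi a x) V * S.g x V T := by
    intro a
    have h1 := R_skew S hx V T (S.xi a x) V
    rw [R_xi S hx a V T] at h1
    simp only [map_sub, map_smul, ContinuousLinearMap.sub_apply,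
      ContinuousLinearMap.smul_apply, smul_eq_mul] at h1
    rw [hsy T V] at h1
    linarith
  have hphT : ∀ a, S.g x (S.phi a x T) V = - S.g x (S.phi a x V) T := by
    intro a
    have h1 : S.g x (S.phi a x T) V = - S.g x T (S.phi a x V) := S.killing x hx a T V
    rw [h1, hsy T]
  rw [qf, hfV, hL1', hL2', hPG', fderiv_Gb S β hx, fderiv_Gb S β hx, S.Gb_apply, S.Gb_apply]
  simp only [hLp', hLx', hLg']
  rw [LocSas.QQ, hRT]
  simp only [LocSas.dEta, LocSas.ddEta, LocSas.D, hGs2, hphT]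
  simp only [hR, map_add, map_sub, ContinuousLinearMap.add_apply,
    ContinuousLinearMap.sub_apply] at hRx
  simp only [hR, hGs, Fin.sum_univ_three, map_add, map_sub, map_neg, map_smul,
    ContinuousLinearMap.add_apply, ContinuousLinearMap.sub_apply, ContinuousLinearMap.neg_apply,
    ContinuousLinearMap.smul_apply, smul_eq_mul, hGW, ContinuousLinearMap.zero_apply, map_zero]
  have hx0 := hRx 0
  have hx1 := hRx 1
  have hx2 := hRx 2
  rw [hsy T (S.Gam x V (S.Gam x V T)), hsy T (fderiv ℝ S.Gam x V V T),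
    hsy T (S.Gam x T (S.Gam x V V)), hsy V' (S.Gam x V T), hsy V' (S.phi 0 x V),
    hsy V' (S.phi 1 x V), hsy V' (S.phi 2 x V), hsy (S.Gam x V T) (S.phi 0 x V),
    hsy (S.Gam x V T) (S.phi 1 x V), hsy (S.Gam x V T) (S.phi 2 x V)]
  linear_combination (β * S.g x (S.xi 0 x) T) * hx0 + (β * S.g x (S.xi 1 x) T) * hx1
    + (β * S.g x (S.xi 2 x) T) * hx2

end Pool.Agent.Helper31.SR
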